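import Pool.Agent.helper53.SP4.Spec

set_option autoImplicit false

namespace Pool.Agent.SP4

theorem S4C_add_left {F : Type} [Field F] (u u' w : Fin 4 → F) : B (u + u') w = B u w + B u' w := by
  simp only [B, Pi.add_apply]; ring

theorem S4C_smul_left {F : Type} [Field F] (c : F) (u w : Fin 4 → F) : B (c • u) w = c * B u w := by
  simp only [B, Pi.smul_apply, smul_eq_mul]; ring

theorem S4C_add_right {F : Type} [Field F] (u w w' : Fin 4 → F) : B u (w + w') = B u w + B u w' := by
  simp only [B, Pi.add_apply]; ring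

theorem S4C_smul_right {F : Type} [Field F] (c : F) (u w : Fin 4 → F) : B u (c • w) = c * B u w := by
  simp only [B, Pi.smul_apply, smul_eq_mul]; ring

theorem S4C_dual {F : Type} [Field F] (hnd : ∀ v : Fin 4 → F, (∀ w, B v w = 0) → v = 0)
    (a b : Fin 4 → F) (hab : ∀ s t : F, s • a + t • b = 0 → s = 0 ∧ t = 0) :
    ∃ w, B a w = 1 ∧ B b w = 0 := by
  have hb : b ≠ 0 := by
    intro hb
    have := (hab 0 1 (by rw [hb]; simp)).2
    exact one_ne_zero this
  obtain ⟨w1, hw1⟩ : ∃ w, B b w ≠ 0 := by
    by_contra h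
    push Not at h
    exact hb (hnd b h)
  by_cases hex : ∃ w, B a w ≠ 0 ∧ B b w = 0
  · obtain ⟨w, hw, hw'⟩ := hex
    refine ⟨(B a w)⁻¹ • w, ?_, ?_⟩
    · rw [S4C_smul_right]; exact inv_mul_cancel₀ hw
    · rw [S4C_smul_right, hw', mul_zero]
  · exfalso
    push Not at hex
    have key : ∀ w, B b w1 * B a w = B b w * B a w1 := by
      intro w
      by_contra hne
      have h1 : B a ((B b w1) • w + (-(B b w)) • w1) ≠ 0 := by
        rw [S4C_add_right, S4C_smul_right, S4C_smul_right]
        intro h0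
        exact hne (by linear_combination h0)
      have h2 := hex _ h1
      rw [S4C_add_right, S4C_smul_right, S4C_smul_right] at h2
      exact h2 (by ring)
    have h3 : (B b w1) • a + (-(B a w1)) • b = 0 := by
      apply hnd
      intro w
      rw [S4C_add_left, S4C_smul_left, S4C_smul_left, key w]
      ring
    exact hw1 (hab _ _ h3).1

theorem S4C (hS4B : S4B_stmt) : S4C_stmt := by
  intro F _ _ a b t g hPl hC hcomm hg3
  obtain ⟨hli, hBab⟩ := hPl
  obtain ⟨_, hsymm, hnd, _, _, _, _, hconj, _, _, _, hspan⟩ := hS4B F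
  have htwo : (2 : F) = 0 := CharTwo.two_eq_zero
  have hli' : ∀ s t : F, s • a + t • b = 0 → s = 0 ∧ t = 0 := by
    rw [LinearIndependent.pair_iff] at hli
    exact hli
  have hli'' : ∀ s t : F, s • b + t • a = 0 → s = 0 ∧ t = 0 := by
    intro s t h
    have := hli' t s (by rw [add_comm]; exact h)
    exact ⟨this.2, this.1⟩
  obtain ⟨wa, hwa1, hwa2⟩ := S4C_dual hnd a b hli'
  obtain ⟨wb, hwb1, hwb2⟩ := S4C_dual hnd b a hli''
  -- comparison of coefficients
  have hcmp : ∀ s t s' t' : F, s • a + t • b = s' • a + t' • b → s = s' ∧ t = t' := by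
    intro s t s' t' h
    have h0 : (s - s') • a + (t - t') • b = 0 := by
      have : (s - s') • a + (t - t') • b = (s • a + t • b) - (s' • a + t' • b) := by module
      rw [this, h, sub_self]
    have := hli' _ _ h0
    exact ⟨sub_eq_zero.1 this.1, sub_eq_zero.1 this.2⟩
  set G : (Fin 4 → F) ≃ₗ[F] (Fin 4 → F) := (g : (Fin 4 → F) ≃ₗ[F] (Fin 4 → F)) with hG
  have hcommw : ∀ w, G ((t : (Fin 4 → F) ≃ₗ[F] (Fin 4 → F)) w) = (t : (Fin 4 → F) ≃ₗ[F] (Fin 4 → F)) (G w) := by
    intro w
    have := congrArg (fun z : SG F => (z : (Fin 4 → F) ≃ₗ[F] (Fin 4 → F)) w) hcomm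
    exact this
  have hg3w : ∀ w, G (G (G w)) = w := by
    intro w
    have := congrArg (fun z : SG F => (z : (Fin 4 → F) ≃ₗ[F] (Fin 4 → F)) w) hg3
    exact this
  have hGB : ∀ u w, B (G u) (G w) = B u w := g.2
  have hstar : ∀ w, B a w • G a + B b w • G b = B a (G w) • a + B b (G w) • b := by
    intro w
    have h := hcommw w
    rw [hC w, hC (G w), map_add, map_add, map_smul, map_smul] at h
    exact add_left_cancel h
  obtain ⟨α, β, hga⟩ : ∃ α β : F, G a = α • a + β • b := by
    refine ⟨B a (G wa), B b (G wa), ?_⟩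
    have h := hstar wa
    rw [hwa1, hwa2, one_smul, zero_smul, add_zero] at h
    exact h
  obtain ⟨γ, δ, hgb⟩ : ∃ γ δ : F, G b = γ • a + δ • b := by
    refine ⟨B a (G wb), B b (G wb), ?_⟩
    have h := hstar wb
    rw [hwb1, hwb2, one_smul, zero_smul, zero_add] at h
    exact h
  have hct : g * t * g⁻¹ = t := by rw [hcomm, mul_assoc, mul_inv_cancel, mul_one]
  have hC' : IsC2 (G a) (G b) t := by
    have h := (hconj g t a b).2.2 hC
    rw [hct] at h
    exact h
  have heq : ∀ w, B (G a) w • G a + B (G b) w • G b = B a w • a + B b w • b := by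
    intro w
    have h1 := hC w
    have h2 := hC' w
    rw [h1] at h2
    exact (add_left_cancel h2).symm
  have hgen : ∀ w, (B (G a) w * α + B (G b) w * γ) • a + (B (G a) w * β + B (G b) w * δ) • b = B a w • a + B b w • b := by
    intro w
    have h1 : B (G a) w • (α • a + β • b) + B (G b) w • (γ • a + δ • b) = B a w • a + B b w • b := by
      rw [← hga, ← hgb]
      exact heq w
    rw [← h1]
    module
  have hBa : ∀ w, B (G a) w = α * B a w + β * B b w := by
    intro w
    rw [hga, S4C_add_left, S4C_smul_left, S4C_smul_left]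
  have hBb : ∀ w, B (G b) w = γ * B a w + δ * B b w := by
    intro w
    rw [hgb, S4C_add_left, S4C_smul_left, S4C_smul_left]
  obtain ⟨e1, e2⟩ := hcmp _ _ _ _ (hgen wa)
  obtain ⟨e3, e4⟩ := hcmp _ _ _ _ (hgen wb)
  rw [hBa, hBb, hwa1, hwa2] at e1 e2
  rw [hBa, hBb, hwb1, hwb2] at e3 e4
  -- e1 : α² + γ² = 1, e2 : αβ + γδ = 0, e4 : β² + δ² = 1
  have f1 : γ = α + 1 := by
    have h : (γ - (α + 1)) ^ 2 = 0 := by
      linear_combination e1 + (1 + α - γ * α - γ) * htwo
    have := pow_eq_zero_iff (two_ne_zero) |>.1 h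
    exact sub_eq_zero.1 this
  have f2 : δ = β + 1 := by
    have h : (δ - (β + 1)) ^ 2 = 0 := by
      linear_combination e4 + (1 + β - δ * β - δ) * htwo
    have := pow_eq_zero_iff (two_ne_zero) |>.1 h
    exact sub_eq_zero.1 this
  have f3 : β = α + 1 := by
    have h : β - (α + 1) = 0 := by
      rw [f1, f2] at e2
      linear_combination e2 - (α * β + α + 1) * htwo
    exact sub_eq_zero.1 h
  have hgga : G (G a) = a := by
    rw [hga, map_add, map_smul, map_smul, hga, hgb, f1, f2, f3]
    have : α • (α • a + (α + 1) • b) + (α + 1) • ((α + 1) • a + (α + 1 + 1) • b) =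
      a + (2 : F) • ((α * α + α) • a + (α * α + 2 * α + 1) • b) := by module
    rw [this, htwo, zero_smul, add_zero]
  have hggb : G (G b) = b := by
    rw [hgb, map_add, map_smul, map_smul, hga, hgb, f1, f2, f3]
    have : (α + 1) • (α • a + (α + 1) • b) + (α + 1 + 1) • ((α + 1) • a + (α + 1 + 1) • b) =
      b + (2 : F) • ((α * α + 2 * α + 1) • a + (α * α + 3 * α + 2) • b) := by module
    rw [this, htwo, zero_smul, add_zero]
  have hGa : G a = a := by
    have h := hg3w a
    rw [hgga] at h
    exact h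
  have hGb : G b = b := by
    have h := hg3w b
    rw [hggb] at h
    exact h
  have hfin : ∀ w, G w = w := by
    intro w
    have hv1 : B a (G w + (-1 : F) • w) = 0 := by
      rw [S4C_add_right, S4C_smul_right]
      have h := hGB a w
      rw [hGa] at h
      rw [h]; ring
    have hv2 : B b (G w + (-1 : F) • w) = 0 := by
      rw [S4C_add_right, S4C_smul_right]
      have h := hGB b w
      rw [hGb] at h
      rw [h]; ring
    have hmem := hspan a b _ ⟨hli, hBab⟩ hv1 hv2
    obtain ⟨s, r, hsr⟩ := Submodule.mem_span_pair.1 hmem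
    have hfix : G (G w + (-1 : F) • w) = G w + (-1 : F) • w := by
      rw [← hsr, map_add, map_smul, map_smul, hGa, hGb]
    rw [map_add, map_smul] at hfix
    have hGG : G (G w) = w := by
      have h1 : G (G w) = w + (2 : F) • (G w + (-1 : F) • w) := by
        have h2 : G (G w) = (G (G w) + (-1 : F) • G w) + G w := by module
        rw [h2, hfix]
        module
      rw [h1, htwo, zero_smul, add_zero]
    have h := hg3w w
    rw [hGG] at h
    exact h
  apply Subtype.ext
  apply LinearEquiv.ext
  intro w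
  exact hfin w

end Pool.Agent.SP4
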