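import Pool.Agent.helper53.SP4.Spec2

/-!
# Project SP4 (MP_561ff4_al), row sp4:S5L: automorphisms which preserve transvections are semilinear
-/

set_option autoImplicit false

namespace Pool.Agent.SP4

open Pool.Agent.GS

theorem S5L_J (F : Type) [Field F] (σ : F ≃+* F) (i j : Fin 2 ⊕ Fin 2) :
    σ (Matrix.J (Fin 2) F i j) = Matrix.J (Fin 2) F i j := by
  rcases i with i | i <;> rcases j with j | j
  · simp [Matrix.J]
  · simp only [Matrix.J, Matrix.fromBlocks_apply₁₂, Matrix.neg_apply, Matrix.one_apply]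
    split_ifs <;> simp
  · simp only [Matrix.J, Matrix.fromBlocks_apply₂₁, Matrix.one_apply]
    split_ifs <;> simp
  · simp [Matrix.J]

theorem S5L (hS5A : S5A_stmt) (hS5B : S5B_stmt) (hS5T : S5T_stmt) : S5L_stmt := by
  intro F _ _ _ x hx
  obtain ⟨Φ, Ψ, L, hLB, hΦ, hΨ, hTv⟩ := hS5T F
  set y : MulAut (SG F) := (Φ.trans x).trans Φ.symm with hy
  have hΦy : ∀ g, Φ (y g) = x (Φ g) := by
    intro g
    show Φ (Φ.symm (x (Φ g))) = x (Φ g)
    rw [MulEquiv.apply_symm_apply]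
  have hyT : ∀ (v : Fin 4 → F) (t : SG F), v ≠ 0 → IsT v t → ∃ w, IsT w (y t) := by
    intro v t hv ht
    have h1 : IsTv (Φ (y t)) := by
      rw [hΦy]
      exact hx _ ((hTv t).1 ⟨v, hv, ht⟩)
    obtain ⟨w, _, hw⟩ := (hTv (y t)).2 h1
    exact ⟨w, hw⟩
  obtain ⟨φ, hsurj, hz, horth, htr, hadd, hline, hequi⟩ := hS5A F y hyT
  obtain ⟨ψ, σ, hψ, hσ, hB⟩ := hS5B F φ hsurj hz horth htr hadd hline
  have hφadd : ∀ u w, φ (u + w) = φ u + φ w := by
    intro u w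
    rw [← hψ, ← hψ, ← hψ, map_add]
  -- the map in the new coordinates
  set ρ : (Fin 2 ⊕ Fin 2 → F) → (Fin 2 ⊕ Fin 2 → F) := fun w => L (φ (L.symm w)) with hρ
  have hρadd : ∀ u w, ρ (u + w) = ρ u + ρ w := by
    intro u w
    simp only [hρ, map_add, hφadd]
  have hρsmul : ∀ (c : F) w, ρ (c • w) = σ c • ρ w := by
    intro c w
    simp only [hρ, map_smul, hσ]
  have hρ0 : ρ 0 = 0 := by
    have h := hρsmul 0 0
    rw [zero_smul, map_zero, zero_smul] at h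
    exact h
  have hρsurj : Function.Surjective ρ := by
    intro w
    obtain ⟨v, hv⟩ := hsurj (L.symm w)
    refine ⟨L v, ?_⟩
    simp only [hρ, LinearEquiv.symm_apply_apply, hv, LinearEquiv.apply_symm_apply]
  have hρsum : ∀ (s : Finset (Fin 2 ⊕ Fin 2)) (f : Fin 2 ⊕ Fin 2 → (Fin 2 ⊕ Fin 2 → F)),
      ρ (∑ i ∈ s, f i) = ∑ i ∈ s, ρ (f i) := by
    classical
    intro s f
    induction s using Finset.induction_on with
    | empty => simp [hρ0]
    | insert a s ha ih => rw [Finset.sum_insert ha, Finset.sum_insert ha, hρadd, ih]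
  set A : Matrix (Fin 2 ⊕ Fin 2) (Fin 2 ⊕ Fin 2) F := Matrix.of fun i j => ρ (Pi.single j 1) i with hA
  have hρA : ∀ w, ρ w = A.mulVec (σ ∘ w) := by
    intro w
    have h1 : w = ∑ j, w j • (Pi.single j 1 : Fin 2 ⊕ Fin 2 → F) := by
      funext i
      rw [Finset.sum_apply, Finset.sum_eq_single i]
      · simp
      · intro j _ hj
        simp [Pi.single_eq_of_ne hj.symm]
      · intro h
        exact absurd (Finset.mem_univ i) h
    conv_lhs => rw [h1]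
    rw [hρsum]
    funext i
    rw [Finset.sum_apply]
    have h2 : (A.mulVec (σ ∘ w)) i = ∑ j, A i j * σ (w j) := rfl
    rw [h2]
    refine Finset.sum_congr rfl fun j _ => ?_
    rw [hρsmul]
    show σ (w j) * ρ (Pi.single j 1) i = ρ (Pi.single j 1) i * σ (w j)
    ring
  have hρB : ∀ u w, BJ 2 F (ρ u) (ρ w) = σ (BJ 2 F u w) := by
    intro u w
    show BJ 2 F (L (φ (L.symm u))) (L (φ (L.symm w))) = _
    rw [hLB, hB, ← hLB, LinearEquiv.apply_symm_apply, LinearEquiv.apply_symm_apply]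
  have hcol : ∀ j, Matrix.toLin' A (Pi.single j 1) = ρ (Pi.single j 1) := by
    intro j
    rw [Matrix.toLin'_apply, Matrix.mulVec_single_one]
    rfl
  have hAJ : A.transpose * Matrix.J (Fin 2) F * A = Matrix.J (Fin 2) F := by
    funext i j
    have h1 : (A.transpose * Matrix.J (Fin 2) F * A) i j =
        Matrix.toBilin' (A.transpose * Matrix.J (Fin 2) F * A) (Pi.single i 1) (Pi.single j 1) := by
      rw [Matrix.toBilin'_single]
    have h2 : Matrix.J (Fin 2) F i j = BJ 2 F (Pi.single i 1) (Pi.single j 1) := by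
      unfold BJ
      rw [Matrix.toBilin'_single]
    rw [h1, ← Matrix.toBilin'_comp, LinearMap.BilinForm.comp_apply, hcol, hcol]
    change BJ 2 F _ _ = _
    rw [hρB, ← h2, S5L_J]
  have hAmem : A ∈ Matrix.symplecticGroup (Fin 2) F := SymplecticGroup.mem_iff'.2 hAJ
  have hAA : A * ((⟨A, hAmem⟩⁻¹ : Matrix.symplecticGroup (Fin 2) F) : Matrix (Fin 2 ⊕ Fin 2) (Fin 2 ⊕ Fin 2) F) = 1 :=
    congrArg Subtype.val (mul_inv_cancel (⟨A, hAmem⟩ : Matrix.symplecticGroup (Fin 2) F))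
  have hAA' : ((⟨A, hAmem⟩⁻¹ : Matrix.symplecticGroup (Fin 2) F) : Matrix (Fin 2 ⊕ Fin 2) (Fin 2 ⊕ Fin 2) F) * A = 1 :=
    congrArg Subtype.val (inv_mul_cancel (⟨A, hAmem⟩ : Matrix.symplecticGroup (Fin 2) F))
  refine ⟨⟨A, _, hAA, hAA'⟩, σ, 1, ?_, ?_⟩
  · rw [one_smul]
    exact SymplecticGroup.mem_iff.1 hAmem
  · intro g h hh
    obtain ⟨g₀, rfl⟩ := Ψ.surjective g
    rw [← hΦ, ← hΦy, hΦ]
    congr 1
    apply Subtype.ext
    apply Matrix.toLin'.injective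
    refine LinearMap.ext fun w => ?_
    obtain ⟨w, rfl⟩ := hρsurj w
    rw [Matrix.toLin'_apply, Matrix.toLin'_apply, hΨ]
    have h1 : L (((y g₀ : SG F) : (Fin 4 → F) ≃ₗ[F] (Fin 4 → F)) (L.symm (ρ w))) =
        ρ (((Ψ g₀ : Matrix.symplecticGroup (Fin 2) F) : Matrix (Fin 2 ⊕ Fin 2) (Fin 2 ⊕ Fin 2) F).mulVec w) := by
      rw [hΨ]
      simp only [hρ, LinearEquiv.symm_apply_apply]
      rw [hequi]
    rw [h1, hh, ← Matrix.mulVec_mulVec, ← Matrix.mulVec_mulVec, hρA w, hρA]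
    have h2 : ((⟨A, _, hAA, hAA'⟩⁻¹ : (Matrix (Fin 2 ⊕ Fin 2) (Fin 2 ⊕ Fin 2) F)ˣ) :
        Matrix (Fin 2 ⊕ Fin 2) (Fin 2 ⊕ Fin 2) F).mulVec (A.mulVec (σ ∘ w)) = σ ∘ w := by
      rw [Matrix.mulVec_mulVec]
      change ((((⟨A, hAmem⟩⁻¹ : Matrix.symplecticGroup (Fin 2) F) : Matrix (Fin 2 ⊕ Fin 2) (Fin 2 ⊕ Fin 2) F)) * A).mulVec _ = _
      rw [hAA', Matrix.one_mulVec]
    rw [h2]
    congr 1
    funext i
    exact RingHom.map_mulVec (σ : F →+* F) _ w i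

end Pool.Agent.SP4
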